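import Pool.Agent.W759.TR.Defs

/-! TR-T9: gluing preserves the iid law (general index set). -/

set_option autoImplicit false

namespace Pool.Agent.W199.TR.T9

open MeasureTheory ProbabilityTheory Set Filter
open scoped ENNReal Topology
open Pool.Agent.W759.TR

theorem meas_glueV {V T : Type} [MeasurableSpace T] (L R : Set V) :
    Measurable (glueV (T := T) L R) := by
  classical
  rw [measurable_pi_iff]
  intro i
  unfold glueV
  split_ifs
  · exact (measurable_pi_apply i).comp measurable_fst
  · exact (measurable_pi_apply i).comp (measurable_snd.comp measurable_snd)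
  · exact (measurable_pi_apply i).comp (measurable_fst.comp measurable_snd)

theorem t9 : T9 := by
  classical
  intro V T _ _ lam _ L R _
  have hprob : IsProbabilityMeasure (iidV V lam) := by unfold iidV; infer_instance
  have hmain : ∀ s : Finset V, ∀ t : V → Set T, (∀ i, MeasurableSet (t i)) →
      (((iidV V lam).prod ((iidV V lam).prod (iidV V lam))).map (glueV L R)) (Set.pi s t) =
        ∏ i ∈ s, lam (t i) := by
    intro s t ht
    rw [Measure.map_apply (meas_glueV L R) (MeasurableSet.pi s.countable_toSet (fun i _ => ht i))]
    have e : glueV L R ⁻¹' (Set.pi (s : Set V) t) =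
        (Set.pi ((s.filter (fun i => i ∈ L) : Finset V) : Set V) t) ×ˢ
        ((Set.pi (((s.filter (fun i => ¬ i ∈ L)).filter (fun i => ¬ i ∈ R) : Finset V) : Set V) t) ×ˢ
         (Set.pi (((s.filter (fun i => ¬ i ∈ L)).filter (fun i => i ∈ R) : Finset V) :
          Set V) t)) := by
      ext ⟨a, b, c⟩
      simp only [Set.mem_preimage, Set.mem_pi, Set.mem_prod, Finset.mem_coe, Finset.mem_filter]
      constructor
      · intro h
        refine ⟨fun i hi => ?_, fun i hi => ?_, fun i hi => ?_⟩
        · have := h i hi.1
          unfold glueV at this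
          rwa [if_pos hi.2] at this
        · have := h i hi.1.1
          unfold glueV at this
          rwa [if_neg hi.1.2, if_neg hi.2] at this
        · have := h i hi.1.1
          unfold glueV at this
          rwa [if_neg hi.1.2, if_pos hi.2] at this
      · rintro ⟨h1, h2, h3⟩ i hi
        unfold glueV
        split_ifs with g1 g2
        · exact h1 i ⟨hi, g1⟩
        · exact h3 i ⟨⟨hi, g1⟩, g2⟩
        · exact h2 i ⟨⟨hi, g1⟩, g2⟩
    rw [e, Measure.prod_prod, Measure.prod_prod]
    unfold iidV
    rw [Measure.infinitePi_pi _ (fun i _ => ht i), Measure.infinitePi_pi _ (fun i _ => ht i),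
      Measure.infinitePi_pi _ (fun i _ => ht i)]
    rw [mul_comm (∏ i ∈ (s.filter (fun i => ¬ i ∈ L)).filter (fun i => ¬ i ∈ R), lam (t i)),
      Finset.prod_filter_mul_prod_filter_not, Finset.prod_filter_mul_prod_filter_not]
  exact Measure.eq_infinitePi _ hmain

end Pool.Agent.W199.TR.T9
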